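import Pool.Agent.H37.CND.Stmts

/-!
# Row RAM of the board `cnd`
-/

set_option autoImplicit false

namespace Pool.CND

/-- `ram` in terms of `b` -/
theorem ram_thm (hlon : S_LON) (hinj : S_INJ) : S_RAM := by
  intro k L G _ _ _ _ P ρ g i hi
  constructor
  · rintro ⟨hf, h⟩
    refine ⟨hf, ?_⟩
    rcases h P.pi P.pi_ne P.ord_pi with h1 | h1
    · exact Or.inl (hinj k L P (ρ g) P.pi hf P.pi_ne P.ord_pi h1)
    · refine Or.inr ?_
      unfold Place.b
      omega
  · rintro ⟨hf, h⟩
    refine ⟨hf, fun u hu hu1 => ?_⟩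
    have key : P.Ge (ρ g P.pi - P.pi) ((i : ℤ) + 1) := by
      rcases h with h | h
      · exact Or.inl (by rw [h]; simp)
      · refine Or.inr ?_
        unfold Place.b at h
        omega
    rcases hlon k L P (ρ g) P.pi i hf P.pi_ne P.ord_pi (by omega) key u with h1 | h1
    · rcases h1 with h2 | h2
      · exact Or.inl (sub_eq_zero.1 h2)
      · refine Or.inr ?_
        rw [hu1] at h2
        omega
    · exact absurd h1 hu

end Pool.CND
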